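import Pool.Agent.H445R3.PP4

set_option autoImplicit false

namespace Pool.Agent.Results.MP_4c2ad3_nt.AlgebraicityConsequences

/-- What the algebraicity of `π ^ (γ π)` (in particular: the rationality of `π ^ π`, `γ = 1`)
would force. All complex powers are principal powers, `z ^ w = exp (w log z)` with real `log z`. -/
theorem result (γ : ℝ) (hγ : IsAlgebraic ℚ γ) (hγ0 : γ ≠ 0)
    (h : IsAlgebraic ℚ (Real.pi ^ (γ * Real.pi))) :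
    -- (i) `log π` is not of the form `a + b / π` with algebraic `a`, `b`
    (∀ a b : ℂ, IsAlgebraic ℚ a → IsAlgebraic ℚ b →
      ((Real.log Real.pi : ℝ) : ℂ) ≠ a + b / ((Real.pi : ℝ) : ℂ)) ∧
    -- (ii) all `n ≥ 2` having some algebraic `n ^ (δ log π)`, `δ ≠ 0` algebraic, are powers of
    -- one integer `r ≥ 2`
    (∃ r : ℕ, 2 ≤ r ∧ ∀ n : ℕ, 2 ≤ n → ∀ δ : ℂ, IsAlgebraic ℚ δ → δ ≠ 0 →
      IsAlgebraic ℚ (((n : ℝ) : ℂ) ^ (δ * ((Real.log Real.pi : ℝ) : ℂ))) →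
      ∃ k : ℕ, n = r ^ k) ∧
    -- (iii) if also some `π ^ (ε π ^ 2)` is algebraic
    ((∃ ε : ℂ, IsAlgebraic ℚ ε ∧ ε ≠ 0 ∧
        IsAlgebraic ℚ (((Real.pi : ℝ) : ℂ) ^ (ε * ((Real.pi : ℝ) : ℂ) ^ 2))) →
      ∀ δ : ℂ, IsAlgebraic ℚ δ → δ ≠ 0 →
        Transcendental ℚ (Complex.exp (δ * ((Real.pi : ℝ) : ℂ) ^ 2)) ∧
        Transcendental ℚ (((Real.pi : ℝ) : ℂ) ^
          (δ * (((Real.pi : ℝ) : ℂ) ^ 2 * ((Real.log Real.pi : ℝ) : ℂ)))) ∧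
        ∀ n : ℕ, 2 ≤ n →
          Transcendental ℚ (((n : ℝ) : ℂ) ^
            (δ * (((Real.pi : ℝ) : ℂ) * ((Real.log Real.pi : ℝ) : ℂ)))) ∧
          (IsAlgebraic ℚ (((n : ℝ) : ℂ) ^ (δ * ((Real.pi : ℝ) : ℂ))) →
            ∃ q : ℚ, Real.log n = q * (γ * (Real.pi * Real.log Real.pi)))) ∧
    -- (iv) if also some `π ^ (ε π log π)` is algebraic
    ((∃ ε : ℂ, IsAlgebraic ℚ ε ∧ ε ≠ 0 ∧
        IsAlgebraic ℚ (((Real.pi : ℝ) : ℂ) ^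
          (ε * (((Real.pi : ℝ) : ℂ) * ((Real.log Real.pi : ℝ) : ℂ))))) →
      ∀ δ : ℂ, IsAlgebraic ℚ δ → δ ≠ 0 →
        Transcendental ℚ (((Real.pi : ℝ) : ℂ) ^
          (δ * (((Real.pi : ℝ) : ℂ) * ((Real.log Real.pi : ℝ) : ℂ) ^ 2))) ∧
        ∀ n : ℕ, 2 ≤ n →
          IsAlgebraic ℚ (((n : ℝ) : ℂ) ^ (δ * ((Real.log Real.pi : ℝ) : ℂ))) →
          ∃ q : ℚ, Real.log n = q * (γ * (Real.pi * Real.log Real.pi))) ∧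
    -- (v) if also some `π ^ ε` with real algebraic `ε ≠ 0` is algebraic
    (∀ ε : ℝ, IsAlgebraic ℚ ε → ε ≠ 0 → IsAlgebraic ℚ (Real.pi ^ ε) →
      ∀ δ : ℂ, IsAlgebraic ℚ δ → δ ≠ 0 →
        Transcendental ℚ (Complex.exp (δ * ((Real.pi : ℝ) : ℂ) ^ 2)) ∧
        Transcendental ℚ (((Real.pi : ℝ) : ℂ) ^ (δ * ((Real.pi : ℝ) : ℂ) ^ 2)) ∧
        Transcendental ℚ (((Real.pi : ℝ) : ℂ) ^ (δ * ((Real.log Real.pi : ℝ) : ℂ))) ∧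
        Transcendental ℚ (((Real.pi : ℝ) : ℂ) ^
          (δ * (((Real.pi : ℝ) : ℂ) * ((Real.log Real.pi : ℝ) : ℂ)))) ∧
        ∀ n : ℕ, 2 ≤ n →
          Transcendental ℚ (((n : ℝ) : ℂ) ^ (δ * ((Real.log Real.pi : ℝ) : ℂ))) ∧
          (IsAlgebraic ℚ (((n : ℝ) : ℂ) ^ (δ * ((Real.pi : ℝ) : ℂ))) →
            ∃ q : ℚ, Real.log n = q * (ε * Real.log Real.pi))) :=
  Pool.Agent.H445R3.PP.final γ hγ hγ0 h

end Pool.Agent.Results.MP_4c2ad3_nt.AlgebraicityConsequences
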