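import Pool.Agent.H445R3.PP4

set_option autoImplicit false

namespace Pool.Agent.Results.MP_4c2ad3_nt.SparseAlgebraicPowers

/-- the `k` for which `π ^ (γ π ^ k)` is algebraic for some algebraic `γ ≠ 0` -/
def AlgExps : Set ℕ := {k | ∃ γ : ℂ, IsAlgebraic ℚ γ ∧ γ ≠ 0 ∧
  IsAlgebraic ℚ (((Real.pi : ℝ) : ℂ) ^ (γ * ((Real.pi : ℝ) : ℂ) ^ k))}

theorem mem_S {k : ℕ} (h : k ∈ AlgExps) : k ∈ Pool.Agent.H445R3.PP.S := by
  obtain ⟨γ, h1, h2, h3⟩ := h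
  rw [Pool.Agent.H445R3.PP.pi_cpow, mul_assoc] at h3
  exact ⟨γ, h1, h2, h3⟩

/-- At most one pair of consecutive integers lies in the set; for every `d ≥ 1` at most two pairs
at distance `d` do; so `n` elements in `[1, N]` satisfy `n (n - 1) ≤ 4 (N - 1)`. -/
theorem result :
    (∀ k m : ℕ, k ∈ AlgExps → k + 1 ∈ AlgExps → m ∈ AlgExps → m + 1 ∈ AlgExps → k = m) ∧
    (∀ d k₁ k₂ k₃ : ℕ, 0 < d → k₁ < k₂ → k₂ < k₃ →
      k₁ ∈ AlgExps → k₂ ∈ AlgExps → k₃ ∈ AlgExps →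
      ¬ (k₁ + d ∈ AlgExps ∧ k₂ + d ∈ AlgExps ∧ k₃ + d ∈ AlgExps)) ∧
    (∀ (N : ℕ) (T : Finset ℕ), 1 ≤ N → (∀ k ∈ T, 1 ≤ k ∧ k ≤ N ∧ k ∈ AlgExps) →
      T.card * (T.card - 1) ≤ 4 * (N - 1)) := by
  classical
  refine ⟨?_, ?_, ?_⟩
  · intro k m h1 h2 h3 h4
    by_contra hkm
    exact Pool.Agent.H445R3.PP.at_most_one hkm (mem_S h1) (mem_S h2) (mem_S h3) (mem_S h4)
  · intro d k₁ k₂ k₃ hd h12 h23 h1 h2 h3 hg
    exact Pool.Agent.H445R3.PP.at_most_two hd h12.ne (h12.trans h23).ne h23.ne (mem_S h1)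
      (mem_S h2) (mem_S h3) (mem_S hg.1) (mem_S hg.2.1) (mem_S hg.2.2)
  · intro N T hN hT
    have h := Pool.Agent.H445R3.PP.count N hN
    have hle : T.card ≤ ((Finset.Icc 1 N).filter (· ∈ Pool.Agent.H445R3.PP.S)).card := by
      apply Finset.card_le_card
      intro k hk
      obtain ⟨a, b, c⟩ := hT k hk
      exact Finset.mem_filter.mpr ⟨Finset.mem_Icc.mpr ⟨a, b⟩, mem_S c⟩
    refine le_trans (Nat.mul_le_mul hle (Nat.sub_le_sub_right hle 1)) ?_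
    convert h

end Pool.Agent.Results.MP_4c2ad3_nt.SparseAlgebraicPowers
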